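import Mathlib

/-!
Board zf (MP_52e316_nt): counting the zeros of a form by windows (elementary part of row Z2).
-/

set_option autoImplicit false

namespace Pool.Agent.H41.ZF

/-- truncation towards zero -/
noncomputable def trunc0 (x : ℝ) : ℤ := if 0 ≤ x then ⌊x⌋ else -⌊-x⌋

theorem trunc0_near (x : ℝ) : |x - (trunc0 x : ℝ)| ≤ 1 := by
  unfold trunc0
  split_ifs with h
  · have h1 := Int.floor_le x
    have h2 := Int.lt_floor_add_one x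
    rw [abs_le]; constructor <;> linarith
  · have h1 := Int.floor_le (-x)
    have h2 := Int.lt_floor_add_one (-x)
    push_cast
    rw [abs_le]; constructor <;> linarith

theorem trunc0_mem {x P : ℝ} (hx : |x| ≤ P) : trunc0 x ∈ Finset.Icc (-⌊P⌋) ⌊P⌋ := by
  rw [Finset.mem_Icc]
  have hx' := abs_le.1 hx
  unfold trunc0
  split_ifs with h
  · have h1 : ⌊x⌋ ≤ ⌊P⌋ := Int.floor_le_floor hx'.2
    have h2 : 0 ≤ ⌊x⌋ := Int.floor_nonneg.2 h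
    constructor <;> linarith
  · push Not at h
    have h1 : ⌊-x⌋ ≤ ⌊P⌋ := Int.floor_le_floor (by linarith)
    have h2 : 0 ≤ ⌊-x⌋ := Int.floor_nonneg.2 (by linarith)
    constructor <;> linarith

theorem abs_le_of_mem_Icc {P : ℝ} {k : ℤ} (hk : k ∈ Finset.Icc (-⌊P⌋) ⌊P⌋) : |(k : ℝ)| ≤ P := by
  rw [Finset.mem_Icc] at hk
  have h0 := Int.floor_le P
  have h1 : (k : ℝ) ≤ (⌊P⌋ : ℝ) := by exact_mod_cast hk.2
  have h2 : (-(⌊P⌋ : ℝ)) ≤ (k : ℝ) := by exact_mod_cast hk.1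
  rw [abs_le]; constructor <;> linarith

open Classical in
/-- the zeros of one function, window by window -/
theorem zeros_windows (d P A : ℝ) (L : ℂ → ℂ) (hL : Differentiable ℂ L) (Z : Finset ℂ)
    (hZ : ∀ ρ ∈ Z, 1 / 2 + d ≤ ρ.re ∧ |ρ.im| ≤ P)
    (hW : ∀ t : ℝ, |t| ≤ P → ∀ Z' : Finset ℂ, (∀ ρ ∈ Z', 1 / 2 + d ≤ ρ.re ∧ |ρ.im - t| ≤ 1) →
      ∑ ρ ∈ Z', (analyticOrderNatAt L ρ : ℝ) ≤ A) :
    ∑ ρ ∈ Z, (analyticOrderNatAt L ρ : ℝ) ≤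
      (((Finset.Icc (-⌊P⌋) ⌊P⌋).filter (fun k : ℤ => ∃ s : ℂ, 1 / 2 + d ≤ s.re ∧
        |s.im - k| ≤ 1 ∧ L s = 0)).card : ℝ) * A := by
  set K := (Finset.Icc (-⌊P⌋) ⌊P⌋).filter (fun k : ℤ => ∃ s : ℂ, 1 / 2 + d ≤ s.re ∧
        |s.im - k| ≤ 1 ∧ L s = 0) with hK
  have h0 : ∀ ρ : ℂ, L ρ ≠ 0 → analyticOrderNatAt L ρ = 0 := by
    intro ρ hρ
    have := (hL.analyticAt ρ).analyticOrderAt_eq_zero.2 hρ
    simp [analyticOrderNatAt, this]
  have h1 : ∑ ρ ∈ Z, (analyticOrderNatAt L ρ : ℝ) =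
      ∑ ρ ∈ Z.filter (fun ρ => L ρ = 0), (analyticOrderNatAt L ρ : ℝ) := by
    rw [Finset.sum_filter]
    refine Finset.sum_congr rfl (fun ρ _ => ?_)
    split_ifs with h
    · rfl
    · rw [h0 ρ h]; simp
  rw [h1]
  have hm : ∀ ρ ∈ Z.filter (fun ρ => L ρ = 0), trunc0 ρ.im ∈ K := by
    intro ρ hρ
    rw [Finset.mem_filter] at hρ
    rw [hK, Finset.mem_filter]
    exact ⟨trunc0_mem (hZ ρ hρ.1).2, ρ, (hZ ρ hρ.1).1, trunc0_near _, hρ.2⟩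
  rw [← Finset.sum_fiberwise_of_maps_to hm, ← nsmul_eq_mul]
  refine Finset.sum_le_card_nsmul _ _ _ (fun k hk => ?_)
  refine hW (k : ℝ) (abs_le_of_mem_Icc (Finset.mem_filter.1 hk).1) _ (fun ρ hρ => ?_)
  rw [Finset.mem_filter, Finset.mem_filter] at hρ
  refine ⟨(hZ ρ hρ.1.1).1, ?_⟩
  rw [← hρ.2]; exact trunc0_near _

/-- the logarithm costs a small power -/
theorem log_cost {m N : ℕ} (hm : 1 ≤ m) (hN : 1 ≤ N) {P c : ℝ} (hP : 1 ≤ P) (hc : 0 < c) :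
    (1 + Real.log (N * P)) * ((N : ℝ) * P ^ m) ^ ((m : ℝ) - c) ≤
      (1 + 2 / c) * ((N : ℝ) * P ^ m) ^ ((m : ℝ) - c / 2) := by
  have hN' : (1 : ℝ) ≤ N := by exact_mod_cast hN
  have hPm : P ≤ P ^ m := by
    calc P = P ^ 1 := (pow_one P).symm
      _ ≤ P ^ m := pow_le_pow_right₀ hP hm
  set x : ℝ := (N : ℝ) * P ^ m with hx
  have hNP : (N : ℝ) * P ≤ x := by
    rw [hx]; exact mul_le_mul_of_nonneg_left hPm (by linarith)
  have hNP1 : 1 ≤ (N : ℝ) * P := by nlinarith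
  have hx1 : 1 ≤ x := le_trans hNP1 hNP
  have hx0 : 0 < x := by linarith
  have hlog : Real.log (N * P) ≤ Real.log x := Real.log_le_log (by linarith) hNP
  have hlx : Real.log x ≤ x ^ (c / 2) / (c / 2) := Real.log_le_rpow_div hx0.le (by linarith)
  have hone : 1 ≤ x ^ (c / 2) := Real.one_le_rpow hx1 (by linarith)
  have h2 : 1 + Real.log (N * P) ≤ (1 + 2 / c) * x ^ (c / 2) := by
    have : x ^ (c / 2) / (c / 2) = (2 / c) * x ^ (c / 2) := by field_simp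
    nlinarith
  have hsplit : x ^ ((m : ℝ) - c / 2) = x ^ (c / 2) * x ^ ((m : ℝ) - c) := by
    rw [← Real.rpow_add hx0]; congr 1; ring
  rw [hsplit, ← mul_assoc]
  exact mul_le_mul_of_nonneg_right h2 (Real.rpow_nonneg hx0.le _)

end Pool.Agent.H41.ZF
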