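import Pool.Agent.H27.ZF.TC
import Pool.Agent.H41.ZF.Z2A

/-!
Board zf (MP_52e316_nt), row Z2: the zero density theorem at one level.
-/

set_option autoImplicit false

namespace Pool.Agent.H41.ZF

open MeasureTheory Pool.Agent.H27.L1.H34.GM Pool.Agent.H27.L1.H34.GZ Pool.Agent.H27.L1.H34.GU
  Pool.Agent.H27.L1.H34.GA Pool.Agent.H27.ZF

theorem nU_one {m N : ℕ} [NeZero N] {S : Type} [DecidableEq S] {D : Set (V m)}
    {F : S → Mat m → VN m N → ℂ} (h : Orthn D F) (i : S) : nU D (F i) = 1 := by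
  have h1 := h.2 i i
  rw [if_pos rfl] at h1
  have h2 : ((nU D (F i) : ℝ) : ℂ) = 1 := by
    rw [← h1]
    unfold nU
    rw [Complex.ofReal_sum]
    refine Finset.sum_congr rfl (fun x _ => ?_)
    rw [← integral_complex_ofReal]
    refine integral_congr_ae (Filter.Eventually.of_forall (fun z => ?_))
    show (((‖F i (mt z) x‖ ^ 2 : ℝ)) : ℂ) = F i (mt z) x * (starRingEnd ℂ) (F i (mt z) x)
    rw [Complex.mul_conj, Complex.normSq_eq_norm_sq]
  exact_mod_cast h2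

/-- row Z2 of the board zf -/
theorem pf_Z2 (h1 : T_Z1) (h2 : T_ZW) : T_Z2 := by
  classical
  intro m d hm hd
  obtain ⟨c, C, hc, hC, h1'⟩ := h1 m d hm hd
  obtain ⟨C', hC', h2'⟩ := h2 m d hm hd
  refine ⟨c / 2, C * C' * (1 + 2 / c), by positivity, by positivity, ?_⟩
  intro N _ T D hS P hP S _ _ F lam W hF L hL Z hZ
  have hN : 1 ≤ N := Nat.one_le_iff_ne_zero.2 (NeZero.ne N)
  have hN' : (1 : ℝ) ≤ N := by exact_mod_cast hN
  have key := h1' N T D hS P hP S F lam W hF L hL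
  have hlog : 0 ≤ Real.log (N * P) := Real.log_nonneg (by nlinarith)
  have hA0 : 0 ≤ C' * (1 + Real.log (N * P)) := by positivity
  have step : ∀ i, ∑ ρ ∈ Z i, (analyticOrderNatAt (L i) ρ : ℝ) ≤
      (((Finset.Icc (-⌊P⌋) ⌊P⌋).filter (fun k : ℤ => ∃ s : ℂ, 1 / 2 + d ≤ s.re ∧
        |s.im - k| ≤ 1 ∧ L i s = 0)).card : ℝ) * (C' * (1 + Real.log (N * P))) := by
    intro i
    refine zeros_windows d P _ (L i) (hL i).1 (Z i) (hZ i) (fun t ht Z' hZ' => ?_)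
    exact h2' N T D hS (F i) (lam i) P (hF.cus i).1 (nU_one hF.orth i) (hF.cus i).2 hP (L i) (hL i)
      t ht Z' hZ'
  calc ∑ i, W i * ∑ ρ ∈ Z i, (analyticOrderNatAt (L i) ρ : ℝ)
      ≤ ∑ i, W i * ((((Finset.Icc (-⌊P⌋) ⌊P⌋).filter (fun k : ℤ => ∃ s : ℂ, 1 / 2 + d ≤ s.re ∧
        |s.im - k| ≤ 1 ∧ L i s = 0)).card : ℝ) * (C' * (1 + Real.log (N * P)))) :=
        Finset.sum_le_sum (fun i _ => mul_le_mul_of_nonneg_left (step i) (hF.nn i))
    _ = (∑ i, W i * (((Finset.Icc (-⌊P⌋) ⌊P⌋).filter (fun k : ℤ => ∃ s : ℂ, 1 / 2 + d ≤ s.re ∧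
        |s.im - k| ≤ 1 ∧ L i s = 0)).card : ℝ)) * (C' * (1 + Real.log (N * P))) := by
        rw [Finset.sum_mul]
        exact Finset.sum_congr rfl (fun i _ => by ring)
    _ ≤ (C * ((N : ℝ) * P ^ m) ^ ((m : ℝ) - c)) * (C' * (1 + Real.log (N * P))) :=
        mul_le_mul_of_nonneg_right key hA0
    _ = C * C' * ((1 + Real.log (N * P)) * ((N : ℝ) * P ^ m) ^ ((m : ℝ) - c)) := by ring
    _ ≤ C * C' * ((1 + 2 / c) * ((N : ℝ) * P ^ m) ^ ((m : ℝ) - c / 2)) :=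
        mul_le_mul_of_nonneg_left (log_cost hm hN hP hc) (by positivity)
    _ = C * C' * (1 + 2 / c) * ((N : ℝ) * P ^ m) ^ ((m : ℝ) - c / 2) := by ring

end Pool.Agent.H41.ZF
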